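import Pool.Agent.H14.TOW.Targets

/-!
# DIC: the combinations of elements of a ring are closed under division
-/

set_option autoImplicit false

open MvPolynomial Pool.Agent.H14.TOW

namespace Pool.Agent.H60.TOW

theorem pf_DIC (_h1 : T_LIN) : T_DIC := by
  intro k K _ _ _ σ ι _ β S hβ hS a ha b hb hb0
  obtain ⟨F, hF⟩ : ∃ F : Subfield K, F = (σ : K →+* K).fieldRange := ⟨_, rfl⟩
  have key : ∀ x : K, x ∈ Submodule.span F (Set.range β) ↔ Cmb σ β x := by
    intro x
    rw [Submodule.mem_span_range_iff_exists_fun]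
    constructor
    · rintro ⟨c, hc⟩
      have h0 : ∀ z ∈ F, ∃ d : K, σ d = z := by
        intro z hz
        rw [hF] at hz
        exact hz
      have h2 : ∀ i, ∃ d : K, σ d = c i := fun i => h0 _ (c i).2
      choose d hd using h2
      refine ⟨d, ?_⟩
      rw [← hc]
      refine Finset.sum_congr rfl fun i _ => ?_
      rw [hd i, mul_comm]
      rfl
    · rintro ⟨c, hc⟩
      refine ⟨fun i => ⟨σ (c i), by rw [hF]; exact ⟨c i, rfl⟩⟩, ?_⟩
      rw [hc]
      refine Finset.sum_congr rfl fun i _ => ?_
      rw [mul_comm]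
      rfl
  obtain ⟨M, hMd⟩ : ∃ M : Submodule F K, M = Submodule.span F (Set.range β) := ⟨_, rfl⟩
  rw [← hMd] at key
  have hfin : FiniteDimensional F M := by
    rw [hMd]
    exact FiniteDimensional.span_of_finite F (Set.finite_range β)
  have hM : ∀ x ∈ M, LinearMap.mulLeft F b x ∈ M := by
    intro x hx
    rw [hMd] at hx
    refine Submodule.span_induction (p := fun x _ => LinearMap.mulLeft F b x ∈ M)
      ?_ ?_ ?_ ?_ hx
    · rintro _ ⟨i, rfl⟩
      exact (key _).2 (hS _ (S.mul_mem hb (hβ i)))
    · rw [map_zero]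
      exact M.zero_mem
    · intro x y _ _ hx hy
      rw [map_add]
      exact M.add_mem hx hy
    · intro c x _ hx
      rw [map_smul]
      exact M.smul_mem c hx
  have hf : Function.Injective ((LinearMap.mulLeft F b).restrict hM) := by
    intro x y hxy
    have h3 : b * (x : K) = b * (y : K) := congrArg Subtype.val hxy
    exact Subtype.ext (mul_left_cancel₀ hb0 h3)
  obtain ⟨⟨a', ha'⟩, h3⟩ := (LinearMap.injective_iff_surjective.1 hf) ⟨a, (key a).2 (hS a ha)⟩
  have h4 : b * a' = a := congrArg Subtype.val h3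
  have h5 : a / b = a' := by
    rw [← h4, mul_div_cancel_left₀ _ hb0]
  rw [h5]
  exact (key a').1 ha'

end Pool.Agent.H60.TOW
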