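import Pool.Agent.H14.TOW.TargetsM

/-!
# MDA: generators and forms
-/

set_option autoImplicit false

open MvPolynomial
open Pool.Agent.H12.ZD (pmap)
open Pool.Agent.H18.HIT Pool.Agent.H18.HX Pool.Agent.H18.VP Pool.Agent.H18.VZ Pool.Agent.H14.TOW

namespace Pool.Agent.H60.TOW

/-- homogenisation with the variable `X 0`, which has the value `1` -/
theorem hom_ex {k E : Type} [Field k] [Field E] [Algebra k E] {L : ℕ} (w : Fin (L + 1) → E)
    (h0 : w 0 = 1) (A : MvPolynomial (Fin (L + 1)) k) (D : ℕ) (hD : A.totalDegree ≤ D) :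
    ∃ f : MvPolynomial (Fin (L + 1)) k, f.IsHomogeneous D ∧ aeval w f = aeval w A := by
  refine ⟨∑ t ∈ Finset.range (D + 1), X 0 ^ (D - t) * homogeneousComponent t A, ?_, ?_⟩
  · refine IsHomogeneous.sum _ _ _ fun t ht => ?_
    have h1 := (isHomogeneous_X_pow (R := k) (0 : Fin (L + 1)) (D - t)).mul
      (homogeneousComponent_isHomogeneous t A)
    have h2 : t ≤ D := Nat.lt_succ_iff.1 (Finset.mem_range.1 ht)
    rwa [Nat.sub_add_cancel h2] at h1
  · have h2 : ∑ t ∈ Finset.range (D + 1), homogeneousComponent t A = A := by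
      conv_rhs => rw [← sum_homogeneousComponent A]
      refine (Finset.sum_subset ?_ ?_).symm
      · intro t ht
        rw [Finset.mem_range] at ht ⊢
        omega
      · intro t _ ht
        rw [Finset.mem_range] at ht
        exact homogeneousComponent_eq_zero t A (by omega)
    conv_rhs => rw [← h2]
    rw [map_sum, map_sum]
    refine Finset.sum_congr rfl fun t _ => ?_
    rw [map_mul, map_pow, aeval_X, h0, one_pow, one_mul]

theorem pf_MDA : T_MDA := by
  intro k E _ _ _ σ hE
  obtain ⟨T, hT⟩ := hE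
  obtain ⟨w, hw⟩ : ∃ w : Fin (T.card + 1) → E, w = Fin.cons 1 fun i => (T.equivFin.symm i : E) :=
    ⟨_, rfl⟩
  have hw0 : w 0 = 1 := by rw [hw]; rfl
  have hgen : IntermediateField.adjoin k (Set.range w) = ⊤ := by
    rw [eq_top_iff, ← hT]
    refine IntermediateField.adjoin.mono k _ _ ?_
    intro x hx
    refine ⟨Fin.succ (T.equivFin ⟨x, hx⟩), ?_⟩
    rw [hw, Fin.cons_succ, Equiv.symm_apply_apply]
  have hfrac : ∀ i, ∃ r s : MvPolynomial (Fin (T.card + 1)) k, aeval w s ≠ 0 ∧
      aeval w r = aeval w s * σ (w i) := by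
    intro i
    have h1 : σ (w i) ∈ IntermediateField.adjoin k (Set.range w) := by
      rw [hgen]
      exact IntermediateField.mem_top
    rw [IntermediateField.mem_adjoin_range_iff] at h1
    obtain ⟨r, s, hrs⟩ := h1
    by_cases hs : aeval w s = 0
    · refine ⟨0, 1, ?_, ?_⟩
      · rw [map_one]
        exact one_ne_zero
      · rw [hrs, hs, div_zero, mul_zero, map_zero]
    · exact ⟨r, s, hs, by rw [hrs, mul_div_cancel₀ _ hs]⟩
  choose r s hs hrs using hfrac
  obtain ⟨A, hA⟩ : ∃ A : Fin (T.card + 1) → MvPolynomial (Fin (T.card + 1)) k,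
    A = fun i => r i * ∏ j ∈ Finset.univ.erase i, s j := ⟨_, rfl⟩
  obtain ⟨B, hB⟩ : ∃ B : MvPolynomial (Fin (T.card + 1)) k, B = ∏ j, s j := ⟨_, rfl⟩
  have hB0 : aeval w B ≠ 0 := by
    rw [hB, map_prod]
    exact Finset.prod_ne_zero_iff.2 fun j _ => hs j
  have hAB : ∀ i, aeval w (A i) = aeval w B * σ (w i) := by
    intro i
    rw [hA, hB, ← Finset.mul_prod_erase Finset.univ s (Finset.mem_univ i)]
    simp only [map_mul]
    rw [hrs i]
    ring
  have hf : ∀ i, ∃ f : MvPolynomial (Fin (T.card + 1)) k,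
      f.IsHomogeneous (1 + ∑ j, (A j).totalDegree) ∧ aeval w f = aeval w (A i) := by
    intro i
    refine hom_ex w hw0 (A i) _ ?_
    have h1 := Finset.single_le_sum (f := fun j => (A j).totalDegree)
      (fun j _ => Nat.zero_le _) (Finset.mem_univ i)
    exact h1.trans (Nat.le_add_left _ _)
  choose f hfh hfe using hf
  have h0 : aeval w (f 0) = aeval w B := by
    rw [hfe, hAB, hw0, map_one, mul_one]
  refine ⟨T.card, 1 + ∑ j, (A j).totalDegree, w, f, hw0, hgen, Nat.le_add_right _ _, hfh, ?_, ?_⟩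
  · rw [h0]
    exact hB0
  · intro i
    rw [h0, hfe, hAB]

end Pool.Agent.H60.TOW
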